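import Pool.Agent.Helper75.Torus.Goals

set_option autoImplicit false

open Set MeasureTheory Matrix

namespace Pool.Agent.Helper57.Torus

open Pool.Agent.Helper75.Torus
open Pool.Agent.Helper75.Flow (curlL)

theorem scal (f : E → ℝ) (a : E) (δ : ℝ) (hδ : 0 < δ) :
    δ ^ 3 * ∫ Y, f (δ • (Y + a)) = ∫ Y, f Y := by
  have h1 : ∫ Y, f (δ • (Y + a)) = ∫ Y, f (δ • Y) :=
    integral_add_right_eq_self (fun Y => f (δ • Y)) a
  rw [h1, Measure.integral_comp_smul]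
  have h2 : Module.finrank ℝ E = 3 := Module.finrank_fin_fun ℝ
  rw [h2, smul_eq_mul, abs_of_pos (by positivity)]
  field_simp

theorem scal_int (f : E → ℝ) (a : E) (δ : ℝ) (hδ : 0 < δ) (hf : Integrable f) :
    Integrable (fun Y : E => f (δ • (Y + a))) := by
  have h1 : Integrable (fun Y : E => f (δ • Y)) := hf.comp_smul hδ.ne'
  exact h1.comp_add_right a

theorem sum_ee (Y : E) : Y = ∑ i, Y i • ee i := by
  ext j
  simp [ee, Pi.single_apply]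

theorem trn_dot (J : E →L[ℝ] E) (z Y : E) : trn J z ⬝ᵥ Y = z ⬝ᵥ J Y := by
  conv_rhs => rw [sum_ee Y]
  rw [map_sum]
  simp only [map_smul, dotProduct_sum, dotProduct_smul, smul_eq_mul]
  rw [dotProduct]
  refine Finset.sum_congr rfl fun i _ => ?_
  rw [trn, mul_comm]

theorem pd_cont (η : E → ℝ) (hη : Bump η) (j : Fin 3) : Continuous (pd j η) := by
  have h1 : ContDiff ℝ 1 η := hη.1.of_le (by norm_num)
  have h2 : Continuous (fderiv ℝ η) := h1.continuous_fderiv (by norm_num)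
  exact h2.clm_apply continuous_const

theorem pd_supp (η : E → ℝ) (hη : Bump η) (j : Fin 3) : HasCompactSupport (pd j η) := by
  have h1 : HasCompactSupport (fderiv ℝ η) := hη.2.1.fderiv (𝕜 := ℝ)
  refine h1.mono' ?_
  intro x hx
  refine subset_closure ?_
  intro h2
  apply hx
  simp only [pd]
  rw [h2]
  rfl

/-- the error of the gradient part -/
theorem grad_part (hT1A : G_T1A) (η : E → ℝ) (κ : E) (hη : Bump η) (hκ : κ ⬝ᵥ κ = 1)
    (J : E →L[ℝ] E) (P b : E) (hb : κ ⬝ᵥ b = 0) : ∃ C : ℝ, 0 ≤ C ∧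
    ∀ δ ∈ Ioc (0 : ℝ) 1, ∀ (q : E) (σ τ : ℝ),
      |δ ^ 3 * (∫ Y, Real.cos (q ⬝ᵥ Y + σ) * (P ⬝ᵥ J (Tf η κ δ τ b Y))) -
        (P ⬝ᵥ J b) * (δ ^ 3 * ∫ Y, Real.cos (q ⬝ᵥ Y + σ) *
          (th η κ δ Y * Real.cos (κ ⬝ᵥ Y + τ)))| ≤ C * δ := by
  obtain ⟨-, hT⟩ := hT1A η κ hη hκ
  set ℓ : Fin 3 → ℝ := fun j => P ⬝ᵥ J (crossProduct (ee j) (crossProduct κ b)) with hℓ
  refine ⟨∑ j, |ℓ j| * ∫ Y, |pd j η Y|, ?_, ?_⟩
  · refine Finset.sum_nonneg fun j _ => mul_nonneg (abs_nonneg _) ?_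
    exact integral_nonneg fun Y => abs_nonneg _
  intro δ hδ q σ τ
  obtain ⟨hTb, hth, hths, -, hTf, hg⟩ := hT δ hδ τ
  obtain ⟨hTc, hTs, -, -⟩ := hTb b
  have hcq : Continuous fun Y : E => Real.cos (q ⬝ᵥ Y + σ) := by
    refine Real.continuous_cos.comp ?_
    exact (continuous_const.dotProduct continuous_id).add continuous_const
  have hi1 : Integrable fun Y : E => Real.cos (q ⬝ᵥ Y + σ) * (P ⬝ᵥ J (Tf η κ δ τ b Y)) := by
    refine Continuous.integrable_of_hasCompactSupport ?_ ?_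
    · exact hcq.mul (continuous_const.dotProduct (J.continuous.comp hTc.continuous))
    · refine HasCompactSupport.mul_left ?_
      refine hTs.mono ?_
      intro Y hY h2
      apply hY
      simp only [h2, map_zero, dotProduct_zero]
  have hi2 : Integrable fun Y : E => Real.cos (q ⬝ᵥ Y + σ) *
      (th η κ δ Y * Real.cos (κ ⬝ᵥ Y + τ)) := by
    refine Continuous.integrable_of_hasCompactSupport ?_ ?_
    · refine hcq.mul (hth.continuous.mul ?_)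
      refine Real.continuous_cos.comp ?_
      exact (continuous_const.dotProduct continuous_id).add continuous_const
    · exact HasCompactSupport.mul_left (HasCompactSupport.mul_right hths)
  have h1 : δ ^ 3 * (∫ Y, Real.cos (q ⬝ᵥ Y + σ) * (P ⬝ᵥ J (Tf η κ δ τ b Y))) -
        (P ⬝ᵥ J b) * (δ ^ 3 * ∫ Y, Real.cos (q ⬝ᵥ Y + σ) *
          (th η κ δ Y * Real.cos (κ ⬝ᵥ Y + τ))) =
      δ ^ 3 * ∫ Y, (Real.cos (q ⬝ᵥ Y + σ) * (P ⬝ᵥ J (Tf η κ δ τ b Y)) -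
        (P ⬝ᵥ J b) * (Real.cos (q ⬝ᵥ Y + σ) * (th η κ δ Y * Real.cos (κ ⬝ᵥ Y + τ)))) := by
    rw [integral_sub hi1 (hi2.const_mul _), integral_const_mul]
    ring
  rw [h1, abs_mul, abs_of_pos (by have := hδ.1; positivity)]
  have h2 : ∀ Y : E, |Real.cos (q ⬝ᵥ Y + σ) * (P ⬝ᵥ J (Tf η κ δ τ b Y)) -
        (P ⬝ᵥ J b) * (Real.cos (q ⬝ᵥ Y + σ) * (th η κ δ Y * Real.cos (κ ⬝ᵥ Y + τ)))| ≤
      ∑ j, |ℓ j| * (δ / 2 * (|pd j η (δ • (Y + 0))| + |pd j η (δ • (Y + Real.pi • κ))|)) := by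
    intro Y
    rw [hTf b Y hb]
    have h3 : P ⬝ᵥ J ((th η κ δ Y * Real.cos (κ ⬝ᵥ Y + τ)) • b -
        Real.sin (κ ⬝ᵥ Y + τ) • crossProduct (gth η κ δ Y) (crossProduct κ b)) =
        (th η κ δ Y * Real.cos (κ ⬝ᵥ Y + τ)) * (P ⬝ᵥ J b) -
        Real.sin (κ ⬝ᵥ Y + τ) * ∑ j, gth η κ δ Y j * ℓ j := by
      rw [map_sub, map_smul, map_smul, dotProduct_sub, dotProduct_smul, dotProduct_smul]
      simp only [smul_eq_mul]
      congr 2
      conv_lhs => rw [sum_ee (gth η κ δ Y)]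
      simp only [map_sum, map_smul, LinearMap.sum_apply, LinearMap.smul_apply, dotProduct_sum,
        dotProduct_smul, smul_eq_mul, hℓ]
    rw [h3]
    have h4 : Real.cos (q ⬝ᵥ Y + σ) * ((th η κ δ Y * Real.cos (κ ⬝ᵥ Y + τ)) * (P ⬝ᵥ J b) -
        Real.sin (κ ⬝ᵥ Y + τ) * ∑ j, gth η κ δ Y j * ℓ j) -
        (P ⬝ᵥ J b) * (Real.cos (q ⬝ᵥ Y + σ) * (th η κ δ Y * Real.cos (κ ⬝ᵥ Y + τ))) =
        -(Real.cos (q ⬝ᵥ Y + σ) * Real.sin (κ ⬝ᵥ Y + τ)) * ∑ j, gth η κ δ Y j * ℓ j := by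
      ring
    rw [h4, abs_mul, abs_neg, abs_mul]
    have h5 : |∑ j, gth η κ δ Y j * ℓ j| ≤
        ∑ j, |ℓ j| * (δ / 2 * (|pd j η (δ • (Y + 0))| + |pd j η (δ • (Y + Real.pi • κ))|)) := by
      refine (Finset.abs_sum_le_sum_abs _ _).trans (Finset.sum_le_sum fun j _ => ?_)
      rw [abs_mul, mul_comm]
      refine mul_le_mul_of_nonneg_left ?_ (abs_nonneg _)
      rw [hg Y, abs_mul, abs_of_pos (by have := hδ.1; positivity), add_zero]
      refine mul_le_mul_of_nonneg_left (abs_add_le _ _) (by have := hδ.1; positivity)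
    calc |Real.cos (q ⬝ᵥ Y + σ)| * |Real.sin (κ ⬝ᵥ Y + τ)| * |∑ j, gth η κ δ Y j * ℓ j| ≤
        1 * 1 * |∑ j, gth η κ δ Y j * ℓ j| := by
          gcongr
          · exact Real.abs_cos_le_one _
          · exact Real.abs_sin_le_one _
      _ ≤ _ := by rw [one_mul, one_mul]; exact h5
  have hi3 : ∀ (j : Fin 3) (a : E), Integrable fun Y : E => |pd j η (δ • (Y + a))| := by
    intro j a
    have h6 : Integrable (pd j η) :=
      (pd_cont η hη j).integrable_of_hasCompactSupport (pd_supp η hη j)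
    exact (scal_int _ a δ hδ.1 h6).abs
  have h7 : |∫ Y, (Real.cos (q ⬝ᵥ Y + σ) * (P ⬝ᵥ J (Tf η κ δ τ b Y)) -
        (P ⬝ᵥ J b) * (Real.cos (q ⬝ᵥ Y + σ) * (th η κ δ Y * Real.cos (κ ⬝ᵥ Y + τ))))| ≤
      ∫ Y, ∑ j, |ℓ j| * (δ / 2 * (|pd j η (δ • (Y + 0))| + |pd j η (δ • (Y + Real.pi • κ))|)) := by
    rw [← Real.norm_eq_abs]
    refine norm_integral_le_of_norm_le ?_ (Filter.Eventually.of_forall h2)
    refine integrable_finset_sum _ fun j _ => ?_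
    exact (((hi3 j 0).add (hi3 j _)).const_mul _).const_mul _
  have h8 : δ ^ 3 * ∫ Y, ∑ j, |ℓ j| * (δ / 2 * (|pd j η (δ • (Y + 0))| +
      |pd j η (δ • (Y + Real.pi • κ))|)) = (∑ j, |ℓ j| * ∫ Y, |pd j η Y|) * δ := by
    have hi4 : ∀ j : Fin 3, Integrable fun Y : E => |ℓ j| * (δ / 2 * (|pd j η (δ • (Y + 0))| +
        |pd j η (δ • (Y + Real.pi • κ))|)) := fun j =>
      (((hi3 j 0).add (hi3 j _)).const_mul _).const_mul _
    rw [integral_finset_sum _ fun j _ => hi4 j]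
    rw [Finset.mul_sum, Finset.sum_mul]
    refine Finset.sum_congr rfl fun j _ => ?_
    rw [integral_const_mul, integral_const_mul, integral_add (hi3 j 0) (hi3 j _)]
    have e1 := scal (fun Y => |pd j η Y|) 0 δ hδ.1
    have e2 := scal (fun Y => |pd j η Y|) (Real.pi • κ) δ hδ.1
    linear_combination |ℓ j| * (δ / 2) * e1 + |ℓ j| * (δ / 2) * e2
  calc δ ^ 3 * |∫ Y, (Real.cos (q ⬝ᵥ Y + σ) * (P ⬝ᵥ J (Tf η κ δ τ b Y)) -
        (P ⬝ᵥ J b) * (Real.cos (q ⬝ᵥ Y + σ) * (th η κ δ Y * Real.cos (κ ⬝ᵥ Y + τ))))| ≤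
      δ ^ 3 * ∫ Y, ∑ j, |ℓ j| * (δ / 2 * (|pd j η (δ • (Y + 0))| +
        |pd j η (δ • (Y + Real.pi • κ))|)) := by
        refine mul_le_mul_of_nonneg_left h7 (by have := hδ.1; positivity)
    _ = _ := h8

/-- oscillation against the cutoff -/
theorem osc_part (hRL : G_RL) (η : E → ℝ) (κ : E) (hη : Bump η) : ∃ C : ℝ, 0 ≤ C ∧
    ∀ δ ∈ Ioc (0 : ℝ) 1, ∀ (k : E) (σ : ℝ), k ≠ 0 →
      |δ ^ 3 * ∫ Y, th η κ δ Y * Real.cos (k ⬝ᵥ Y + σ)| ≤ C * δ / nn k := by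
  obtain ⟨C, hC, h⟩ := hRL η (hη.1.of_le (by norm_num)) hη.2.1
  refine ⟨C, hC, ?_⟩
  intro δ hδ k σ hk
  have hηi : Integrable η := (hη.1.continuous).integrable_of_hasCompactSupport hη.2.1
  have hc : Continuous fun Y : E => Real.cos (k ⬝ᵥ Y + σ) := by
    refine Real.continuous_cos.comp ?_
    exact (continuous_const.dotProduct continuous_id).add continuous_const
  have hi : ∀ a : E, Integrable fun Y : E => η (δ • (Y + a)) * Real.cos (k ⬝ᵥ Y + σ) := by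
    intro a
    refine (scal_int η a δ hδ.1 hηi).mul_bdd (c := 1) hc.aestronglyMeasurable
      (Filter.Eventually.of_forall fun Y => ?_)
    rw [Real.norm_eq_abs]
    exact Real.abs_cos_le_one _
  have h1 : δ ^ 3 * ∫ Y, th η κ δ Y * Real.cos (k ⬝ᵥ Y + σ) =
      (δ ^ 3 * (∫ Y, η (δ • (Y + 0)) * Real.cos (k ⬝ᵥ Y + σ)) +
        δ ^ 3 * (∫ Y, η (δ • (Y + Real.pi • κ)) * Real.cos (k ⬝ᵥ Y + σ))) / 2 := by
    have h2 : ∀ Y : E, th η κ δ Y * Real.cos (k ⬝ᵥ Y + σ) =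
        1 / 2 * (η (δ • (Y + 0)) * Real.cos (k ⬝ᵥ Y + σ) +
          η (δ • (Y + Real.pi • κ)) * Real.cos (k ⬝ᵥ Y + σ)) := by
      intro Y
      rw [th, add_zero]
      ring
    simp only [h2]
    rw [integral_const_mul, integral_add (hi 0) (hi _)]
    ring
  rw [h1]
  have h3 := abs_le.1 (h k 0 δ σ hk hδ.1)
  have h4 := abs_le.1 (h k (Real.pi • κ) δ σ hk hδ.1)
  rw [abs_le]
  constructor <;> linarith [h3.1, h3.2, h4.1, h4.2]

theorem th_int (hT1A : G_T1A) (η : E → ℝ) (κ : E) (hη : Bump η) (hκ : κ ⬝ᵥ κ = 1) :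
    ∀ δ ∈ Ioc (0 : ℝ) 1, Integrable (th η κ δ) ∧ δ ^ 3 * ∫ Y, th η κ δ Y = ∫ Y, η Y := by
  intro δ hδ
  have hηi : Integrable η := (hη.1.continuous).integrable_of_hasCompactSupport hη.2.1
  have hi : ∀ a : E, Integrable fun Y : E => η (δ • (Y + a)) := fun a =>
    scal_int η a δ hδ.1 hηi
  have h2 : ∀ Y : E, th η κ δ Y = 1 / 2 * (η (δ • (Y + 0)) + η (δ • (Y + Real.pi • κ))) := by
    intro Y
    rw [th, add_zero]
    ring
  constructor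
  · have h3 : th η κ δ = fun Y => 1 / 2 * (η (δ • (Y + 0)) + η (δ • (Y + Real.pi • κ))) :=
      funext h2
    rw [h3]
    exact ((hi 0).add (hi _)).const_mul _
  · simp only [h2]
    rw [integral_const_mul, integral_add (hi 0) (hi _)]
    have e1 := scal η 0 δ hδ.1
    have e2 := scal η (Real.pi • κ) δ hδ.1
    linear_combination (1 / 2) * e1 + (1 / 2) * e2

theorem dir_mod (m r : ℕ) (h : m % 8 = r % 8) : dir m = dir r := by
  unfold dir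
  rw [h]

theorem pol_mod (m r : ℕ) (h : m % 8 = r % 8) : pol m = pol r := by
  unfold pol
  rw [h]

theorem dir_pos (n : ℕ) : 0 < dir n ⬝ᵥ dir n := by
  unfold dir
  split <;> (simp [dotProduct, Fin.sum_univ_three] <;> norm_num)

theorem nn_dir_pos (n : ℕ) : 0 < nn (dir n) := Real.sqrt_pos.2 (dir_pos n)

theorem kap_unit (n : ℕ) : kap n ⬝ᵥ kap n = 1 := by
  have h1 : nn (dir n) ^ 2 = dir n ⬝ᵥ dir n := Real.sq_sqrt (dir_pos n).le
  have h2 := nn_dir_pos n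
  rw [kap, smul_dotProduct, dotProduct_smul, smul_eq_mul, smul_eq_mul, ← h1]
  field_simp

theorem xi_eq (N n : ℕ) : xi N n = lamn N n • kap n := by
  have h2 := nn_dir_pos n
  rw [xi, lamn, kap, smul_smul, mul_assoc, mul_inv_cancel₀ h2.ne', mul_one]

theorem lamn_pos (N n : ℕ) (hN : 4 ≤ N) : 0 < lamn N n := by
  have h2 := nn_dir_pos n
  have h3 : (0 : ℝ) < N := by
    have : 0 < N := by omega
    exact_mod_cast this
  rw [lamn]
  positivity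

theorem pair_term (α : ℝ) (N : ℕ) (η : E → ℝ) (hN : 4 ≤ N) (m : ℕ) (x : E) (J : E →L[ℝ] E)
    (δ τ : ℝ) (b : E) :
    pair α η (term α N m) x (lamn N m) J (kap m) δ τ b =
      δ ^ 3 * ∫ Y, Real.cos (trn J (kap m) ⬝ᵥ Y + xi N m ⬝ᵥ x) *
        (pol m ⬝ᵥ J (Tf η (kap m) δ τ b Y)) := by
  have hl := lamn_pos N m hN
  rw [pair]
  have h1 : ∀ Y : E, term α N m (x + (lamn N m)⁻¹ • J Y) ⬝ᵥ J (Tf η (kap m) δ τ b Y) =
      (lamn N m) ^ (-(1 + α)) * (Real.cos (trn J (kap m) ⬝ᵥ Y + xi N m ⬝ᵥ x) *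
        (pol m ⬝ᵥ J (Tf η (kap m) δ τ b Y))) := by
    intro Y
    rw [term, smul_dotProduct, smul_eq_mul]
    have h2 : xi N m ⬝ᵥ (x + (lamn N m)⁻¹ • J Y) = trn J (kap m) ⬝ᵥ Y + xi N m ⬝ᵥ x := by
      rw [dotProduct_add, dotProduct_smul, trn_dot, smul_eq_mul]
      conv_lhs => rw [add_comm]
      congr 1
      rw [xi_eq, smul_dotProduct, smul_eq_mul]
      field_simp
    rw [h2]
    ring
  simp only [h1]
  rw [integral_const_mul]
  have h3 : (lamn N m) ^ (1 + α) * (lamn N m) ^ (-(1 + α)) = 1 := by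
    rw [← Real.rpow_add hl]
    simp
  linear_combination (δ ^ 3 * ∫ Y, Real.cos (trn J (kap m) ⬝ᵥ Y + xi N m ⬝ᵥ x) *
        (pol m ⬝ᵥ J (Tf η (kap m) δ τ b Y))) * h3

theorem kap_mod (m r : ℕ) (h : m % 8 = r % 8) : kap m = kap r := by
  rw [kap, kap, dir_mod m r h]

theorem prod_cos (A B : ℝ) : Real.cos A * Real.cos B =
    1 / 2 * Real.cos (A + B) + 1 / 2 * Real.cos (A - B) := by
  rw [Real.cos_add, Real.cos_sub]
  ring

/-- the main part -/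
theorem main_part (hT1A : G_T1A) (η : E → ℝ) (κ : E) (hη : Bump η) (hκ : κ ⬝ᵥ κ = 1) :
    ∀ δ ∈ Ioc (0 : ℝ) 1, ∀ (q : E) (σ τ : ℝ),
      δ ^ 3 * (∫ Y, Real.cos (q ⬝ᵥ Y + σ) * (th η κ δ Y * Real.cos (κ ⬝ᵥ Y + τ))) =
      1 / 2 * (δ ^ 3 * ∫ Y, th η κ δ Y * Real.cos ((q + κ) ⬝ᵥ Y + (σ + τ))) +
        1 / 2 * (δ ^ 3 * ∫ Y, th η κ δ Y * Real.cos ((q - κ) ⬝ᵥ Y + (σ - τ))) := by
  intro δ hδ q σ τ
  obtain ⟨hi, -⟩ := th_int hT1A η κ hη hκ δ hδ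
  have hj : ∀ (k : E) (s : ℝ), Integrable fun Y : E => th η κ δ Y * Real.cos (k ⬝ᵥ Y + s) := by
    intro k s
    have hc : Continuous fun Y : E => Real.cos (k ⬝ᵥ Y + s) := by
      refine Real.continuous_cos.comp ?_
      exact (continuous_const.dotProduct continuous_id).add continuous_const
    refine hi.mul_bdd (c := 1) hc.aestronglyMeasurable
      (Filter.Eventually.of_forall fun Y => ?_)
    rw [Real.norm_eq_abs]
    exact Real.abs_cos_le_one _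
  have h1 : ∀ Y : E, Real.cos (q ⬝ᵥ Y + σ) * (th η κ δ Y * Real.cos (κ ⬝ᵥ Y + τ)) =
      1 / 2 * (th η κ δ Y * Real.cos ((q + κ) ⬝ᵥ Y + (σ + τ))) +
        1 / 2 * (th η κ δ Y * Real.cos ((q - κ) ⬝ᵥ Y + (σ - τ))) := by
    intro Y
    have h2 := prod_cos (q ⬝ᵥ Y + σ) (κ ⬝ᵥ Y + τ)
    rw [show q ⬝ᵥ Y + σ + (κ ⬝ᵥ Y + τ) = (q + κ) ⬝ᵥ Y + (σ + τ) by
      rw [add_dotProduct]; ring, show q ⬝ᵥ Y + σ - (κ ⬝ᵥ Y + τ) = (q - κ) ⬝ᵥ Y + (σ - τ) by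
      rw [sub_dotProduct]; ring] at h2
    linear_combination th η κ δ Y * h2
  simp only [h1]
  rw [integral_add ((hj _ _).const_mul _) ((hj _ _).const_mul _), integral_const_mul,
    integral_const_mul]
  ring

theorem thm (hRL : G_RL) (hT1A : G_T1A) : G_SGI := by
  intro α N η _ _ hN hη b r ρ hb hρ
  have hκ := kap_unit r
  obtain ⟨C₁, hC₁, h1⟩ := grad_part hT1A η (kap r) hη hκ (ContinuousLinearMap.id ℝ E) (pol r) b hb
  obtain ⟨C₂, hC₂, h2⟩ := osc_part hRL η (kap r) hη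
  have hk : kap r + kap r ≠ 0 := by
    intro h
    have h3 : (kap r + kap r) ⬝ᵥ (kap r) = 0 := by rw [h, zero_dotProduct]
    rw [add_dotProduct, hκ] at h3
    norm_num at h3
  set M : ℝ := C₁ + |pol r ⬝ᵥ b| * (C₂ / nn (kap r + kap r)) with hM
  have hM0 : 0 ≤ M := by
    have : 0 ≤ nn (kap r + kap r) := Real.sqrt_nonneg _
    positivity
  refine ⟨ρ / (M + 1), by positivity, ?_⟩
  intro δ hδ hδ' m x hm
  rw [← kap_mod m r hm, pair_term α N η hN, kap_mod m r hm, pol_mod m r hm]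
  set σ := xi N m ⬝ᵥ x with hσ
  have hq : trn (ContinuousLinearMap.id ℝ E) (kap r) = kap r := by
    ext i
    simp only [trn, ContinuousLinearMap.id_apply, ee, dotProduct_single, mul_one]
  rw [hq]
  have h4 := h1 δ hδ (kap r) σ σ
  rw [main_part hT1A η (kap r) hη hκ δ hδ] at h4
  obtain ⟨-, h5⟩ := th_int hT1A η (kap r) hη hκ δ hδ
  have h6 : ∫ Y, th η (kap r) δ Y * Real.cos ((kap r - kap r) ⬝ᵥ Y + (σ - σ)) =
      ∫ Y, th η (kap r) δ Y := by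
    simp
  rw [h6, h5] at h4
  have h7 := h2 δ hδ (kap r + kap r) (σ + σ) hk
  simp only [ContinuousLinearMap.id_apply] at h4 ⊢
  set I₁ := δ ^ 3 * ∫ Y, Real.cos (kap r ⬝ᵥ Y + σ) * (pol r ⬝ᵥ Tf η (kap r) δ σ b Y) with hI₁
  set I₂ := δ ^ 3 * ∫ Y, th η (kap r) δ Y * Real.cos ((kap r + kap r) ⬝ᵥ Y + (σ + σ)) with hI₂
  have h8 : I₁ - 1 / 2 * (pol r ⬝ᵥ b) * ∫ Y, η Y =
      (I₁ - (pol r ⬝ᵥ b) * (1 / 2 * I₂ + 1 / 2 * ∫ Y, η Y)) + (pol r ⬝ᵥ b) * (1 / 2 * I₂) := by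
    ring
  rw [h8]
  refine (abs_add_le _ _).trans ?_
  have h9 : |(pol r ⬝ᵥ b) * (1 / 2 * I₂)| ≤ |pol r ⬝ᵥ b| * (C₂ / nn (kap r + kap r)) * δ := by
    rw [abs_mul, abs_mul, mul_assoc]
    refine mul_le_mul_of_nonneg_left ?_ (abs_nonneg _)
    have h10 : C₂ / nn (kap r + kap r) * δ = C₂ * δ / nn (kap r + kap r) := by ring
    rw [h10, abs_of_pos (by norm_num : (0 : ℝ) < 1 / 2)]
    linarith [abs_nonneg I₂]
  have h11 : M * δ ≤ ρ := by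
    calc M * δ ≤ (M + 1) * δ := by nlinarith [hδ.1]
      _ ≤ (M + 1) * (ρ / (M + 1)) := by
          refine mul_le_mul_of_nonneg_left hδ' (by positivity)
      _ = ρ := by field_simp
  calc _ ≤ C₁ * δ + |pol r ⬝ᵥ b| * (C₂ / nn (kap r + kap r)) * δ := add_le_add h4 h9
    _ = M * δ := by rw [hM]; ring
    _ ≤ ρ := h11

theorem Tf_red (η : E → ℝ) (κ : E) (δ τ : ℝ) (b : E) (c : ℝ) :
    Tf η κ δ τ (b - c • κ) = Tf η κ δ τ b := by
  have h1 : Qf η κ δ τ (b - c • κ) = Qf η κ δ τ b := by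
    funext Y
    simp only [Qf, map_sub, map_smul, cross_self, smul_zero, sub_zero]
  funext Y
  rw [Tf, Tf, h1]

theorem thmT (hRL : G_RL) (hT1A : G_T1A) : G_SGT := by
  intro α N η _ _ hN hη b' J r ρ hρ hne1 hne2
  have hκ := kap_unit r
  set b : E := b' - (kap r ⬝ᵥ b') • kap r with hbdef
  have hb : kap r ⬝ᵥ b = 0 := by
    rw [hbdef, dotProduct_sub, dotProduct_smul, hκ, smul_eq_mul, mul_one, sub_self]
  obtain ⟨C₁, hC₁, h1⟩ := grad_part hT1A η (kap r) hη hκ J (pol r) b hb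
  obtain ⟨C₂, hC₂, h2⟩ := osc_part hRL η (kap r) hη
  set q : E := trn J (kap r) with hq
  have hk1 : q + kap r ≠ 0 := fun h => hne2 (eq_neg_of_add_eq_zero_left h)
  have hk2 : q - kap r ≠ 0 := fun h => hne1 (sub_eq_zero.1 h)
  set M : ℝ := C₁ + |pol r ⬝ᵥ J b| * (C₂ / nn (q + kap r) + C₂ / nn (q - kap r)) with hM
  have hM0 : 0 ≤ M := by
    have e1 : 0 ≤ nn (q + kap r) := Real.sqrt_nonneg _
    have e2 : 0 ≤ nn (q - kap r) := Real.sqrt_nonneg _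
    positivity
  refine ⟨ρ / (M + 1), by positivity, ?_⟩
  intro δ hδ hδ' m x τ hm
  rw [← kap_mod m r hm, pair_term α N η hN, kap_mod m r hm, pol_mod m r hm]
  rw [← Tf_red η (kap r) δ τ b' (kap r ⬝ᵥ b')]
  change |δ ^ 3 * ∫ Y, Real.cos (q ⬝ᵥ Y + xi N m ⬝ᵥ x) * (pol r ⬝ᵥ J (Tf η (kap r) δ τ b Y))| ≤ ρ
  set σ := xi N m ⬝ᵥ x with hσ
  have h4 := h1 δ hδ q σ τ
  rw [main_part hT1A η (kap r) hη hκ δ hδ] at h4
  have h7 := h2 δ hδ (q + kap r) (σ + τ) hk1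
  have h7' := h2 δ hδ (q - kap r) (σ - τ) hk2
  set I₁ := δ ^ 3 * ∫ Y, Real.cos (q ⬝ᵥ Y + σ) * (pol r ⬝ᵥ J (Tf η (kap r) δ τ b Y)) with hI₁
  set I₂ := δ ^ 3 * ∫ Y, th η (kap r) δ Y * Real.cos ((q + kap r) ⬝ᵥ Y + (σ + τ)) with hI₂
  set I₃ := δ ^ 3 * ∫ Y, th η (kap r) δ Y * Real.cos ((q - kap r) ⬝ᵥ Y + (σ - τ)) with hI₃
  have h8 : I₁ =
      (I₁ - (pol r ⬝ᵥ J b) * (1 / 2 * I₂ + 1 / 2 * I₃)) +
        (pol r ⬝ᵥ J b) * (1 / 2 * I₂ + 1 / 2 * I₃) := by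
    ring
  rw [h8]
  refine (abs_add_le _ _).trans ?_
  have h9 : |(pol r ⬝ᵥ J b) * (1 / 2 * I₂ + 1 / 2 * I₃)| ≤
      |pol r ⬝ᵥ J b| * (C₂ / nn (q + kap r) + C₂ / nn (q - kap r)) * δ := by
    rw [abs_mul, mul_assoc]
    refine mul_le_mul_of_nonneg_left ?_ (abs_nonneg _)
    have h10 : (C₂ / nn (q + kap r) + C₂ / nn (q - kap r)) * δ =
        C₂ * δ / nn (q + kap r) + C₂ * δ / nn (q - kap r) := by ring
    rw [h10]
    refine (abs_add_le _ _).trans ?_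
    have e1 : |1 / 2 * I₂| = 1 / 2 * |I₂| := by
      rw [abs_mul, abs_of_pos (by norm_num : (0 : ℝ) < 1 / 2)]
    have e2 : |1 / 2 * I₃| = 1 / 2 * |I₃| := by
      rw [abs_mul, abs_of_pos (by norm_num : (0 : ℝ) < 1 / 2)]
    rw [e1, e2]
    linarith [abs_nonneg I₂, abs_nonneg I₃]
  have h11 : M * δ ≤ ρ := by
    calc M * δ ≤ (M + 1) * δ := by nlinarith [hδ.1]
      _ ≤ (M + 1) * (ρ / (M + 1)) := by
          refine mul_le_mul_of_nonneg_left hδ' (by positivity)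
      _ = ρ := by field_simp
  calc _ ≤ C₁ * δ + |pol r ⬝ᵥ J b| * (C₂ / nn (q + kap r) + C₂ / nn (q - kap r)) * δ :=
        add_le_add h4 h9
    _ = M * δ := by rw [hM]; ring
    _ ≤ ρ := h11

end Pool.Agent.Helper57.Torus
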